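import Pool.Agent.Helper72_Cut.Statements
import Pool.Agent.Helper91_CW.Alg

set_option autoImplicit false

/-!
# Small modules: C2, C5, C6, C8, D4, D6, D7
-/

namespace Pool.Agent.Helper3_CW

open Finset Equiv Pool.Agent.Helper91_CW H72C

/-- C8. -/
theorem SUM : SUM_stmt := by
  intro P f
  simp only [Hx, gd, lv]
  rw [Fintype.sum_sigma]
  refine Finset.sum_congr rfl fun g _ => ?_
  rw [Fintype.sum_sigma, ← Fin.sum_univ_eq_sum_range (fun j => (P.M0 : ℝ) * 4 ^ j * f g j)]
  refine Finset.sum_congr rfl fun j _ => ?_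
  simp [ZMod.card]

/-- D7. -/
theorem PAIR : PAIR_stmt := by
  intro H _ _ N w q hw
  have hsym : ∀ f g : H → ℝ, ∑ z, Kw N w q f z * g z = ∑ z, f z * Kw N w q g z := by
    intro f g
    simp only [Kw, add_mul, mul_add, Finset.sum_add_distrib, Finset.sum_mul, Finset.mul_sum]
    congr 1
    · exact Finset.sum_congr rfl fun z _ => by ring
    · rw [Finset.sum_comm]
      refine Finset.sum_congr rfl fun y _ => Finset.sum_congr rfl fun z _ => ?_
      rw [hw z y]; ring
  constructor
  · intro s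
    induction s with
    | zero => intro t f g; simp
    | succ s ih =>
      intro t f g
      rw [Function.iterate_succ_apply, ih, hsym]
      refine Finset.sum_congr rfl fun z _ => ?_
      rw [show s + 1 + t = (s + t) + 1 by omega, Function.iterate_succ_apply']
  · intro s
    have h1 : mw N w q (s + 1) = ∑ z, Kw N w q (fun y => kw N w q s y) z := by
      unfold mw kw
      refine Finset.sum_congr rfl fun z _ => ?_
      rw [Function.iterate_succ_apply']
    have h2 : ∑ z, Kw N w q (fun y => kw N w q s y) z =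
        ∑ z, kw N w q s z * Kw N w q (fun _ => 1) z := by
      have := hsym (fun _ => 1) (fun y => kw N w q s y)
      simp only [one_mul] at this
      rw [← this]
      exact Finset.sum_congr rfl fun z _ => mul_comm _ _
    rw [h1, h2]
    unfold mw
    rw [Finset.mul_sum, ← Finset.sum_sub_distrib]
    refine Finset.sum_congr rfl fun z _ => ?_
    simp only [Kw, mul_one]
    ring

/-- D4. -/
theorem MIXU : MIXU_stmt := by
  intro V _ _ X R p hX hR hp0 hp1 t
  have hnn : ∀ f : Alg (Perm V), IsProb f → nrm f = 1 := by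
    intro f hf
    unfold nrm
    rw [← hf.2]
    exact Finset.sum_congr rfl fun g _ => abs_of_nonneg (hf.1 g)
  have hX1 := hnn X hX
  have hR1 := hnn R hR
  set Y : Alg (Perm V) := (1 - p) • X + p • R with hY
  have hY1 : nrm Y ≤ 1 := by
    refine (nrm_add_le _ _).trans ?_
    rw [nrm_smul, nrm_smul, hX1, hR1, abs_of_nonneg hp0, abs_of_nonneg (by linarith)]
    linarith
  have hXt : ∀ t : ℕ, nrm (X ^ t) ≤ 1 := by
    intro t
    induction t with
    | zero => rw [pow_zero, ← pt_one, nrm_pt]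
    | succ t ih =>
      rw [pow_succ]
      refine (nrm_mul_le _ _).trans ?_
      rw [hX1, mul_one]; exact ih
  have key : ∀ t : ℕ, nrm (Y ^ t - (1 - p) ^ t • X ^ t) ≤ 1 - (1 - p) ^ t := by
    intro t
    induction t with
    | zero => simp
    | succ t ih =>
      have e : Y ^ (t + 1) - (1 - p) ^ (t + 1) • X ^ (t + 1) =
          (Y ^ t - (1 - p) ^ t • X ^ t) * Y + ((1 - p) ^ t * p) • (X ^ t * R) := by
        rw [sub_mul, ← pow_succ]
        conv_rhs => rw [show (1 - p) ^ t • X ^ t * Y =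
          (1 - p) ^ t • X ^ t * ((1 - p) • X + p • R) by rw [hY]]
        rw [mul_add, smul_mul_smul_comm, smul_mul_smul_comm, pow_succ, pow_succ]
        abel
      rw [e]
      refine (nrm_add_le _ _).trans ?_
      have h1 : nrm ((Y ^ t - (1 - p) ^ t • X ^ t) * Y) ≤ 1 - (1 - p) ^ t :=
        (nrm_mul_le _ _).trans ((mul_le_of_le_one_right (nrm_nonneg _) hY1).trans ih)
      have h2 : nrm (((1 - p) ^ t * p) • (X ^ t * R)) ≤ (1 - p) ^ t * p := by
        have hq : 0 ≤ (1 - p) ^ t * p := mul_nonneg (pow_nonneg (by linarith) _) hp0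
        rw [nrm_smul, abs_of_nonneg hq]
        refine mul_le_of_le_one_right hq ?_
        refine (nrm_mul_le _ _).trans ?_
        rw [hR1, mul_one]; exact hXt t
      rw [pow_succ]
      linarith
  have hU : nrm (unif (univ : Finset (Perm V))) ≤ 1 := by
    unfold unif
    rw [nrm_smul, abs_of_nonneg (by positivity)]
    have h1 : nrm (∑ g ∈ (univ : Finset (Perm V)), pt g) ≤ (univ : Finset (Perm V)).card := by
      refine (nrm_sum_le _ _).trans ?_
      simp [nrm_pt]
    have h2 : 0 < (univ : Finset (Perm V)).card := Finset.card_pos.mpr ⟨1, Finset.mem_univ _⟩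
    rw [inv_mul_le_iff₀ (by exact_mod_cast h2)]
    simpa using h1
  have hqt : (1 - p) ^ t ≤ 1 := pow_le_one₀ (by linarith) (by linarith)
  have hqt0 : 0 ≤ (1 - p) ^ t := pow_nonneg (by linarith) _
  have e : Y ^ t - unif univ = (Y ^ t - (1 - p) ^ t • X ^ t) +
      (1 - p) ^ t • (X ^ t - unif univ) + (-(1 - (1 - p) ^ t)) • unif univ := by
    rw [smul_sub, neg_smul, sub_smul, one_smul]
    abel
  rw [e]
  refine (nrm_add_le _ _).trans ?_
  have h3 : nrm ((-(1 - (1 - p) ^ t)) • unif (univ : Finset (Perm V))) ≤ 1 - (1 - p) ^ t := by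
    rw [nrm_smul, abs_neg, abs_of_nonneg (by linarith)]
    exact mul_le_of_le_one_right (by linarith) hU
  have h4 : nrm ((Y ^ t - (1 - p) ^ t • X ^ t) + (1 - p) ^ t • (X ^ t - unif univ)) ≤
      (1 - (1 - p) ^ t) + (1 - p) ^ t * nrm (X ^ t - unif univ) := by
    refine (nrm_add_le _ _).trans ?_
    rw [nrm_smul, abs_of_nonneg hqt0]
    linarith [key t]
  linarith

/-- C5. -/
theorem TWIN : TWIN_stmt := by
  intro P x x' hx hc
  have hM := P.hM0
  have hv := ZMod.val_lt (ce P x)
  have hv' := ZMod.val_lt (ce P x')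
  unfold cellN at hc
  have hg : gd P x = gd P x' := by
    cases h1 : gd P x <;> cases h2 : gd P x' <;> simp only [h1, h2] at hc ⊢ <;>
      simp at hc <;> omega
  have hc2 : P.M0 * lv P x + ZMod.val (ce P x) = P.M0 * lv P x' + ZMod.val (ce P x') := by
    rw [hg] at hc
    omega
  have hl : lv P x = lv P x' := by
    have h1 : (P.M0 * lv P x + ZMod.val (ce P x)) / P.M0 = lv P x := by
      rw [Nat.mul_add_div (by omega), Nat.div_eq_of_lt hv, add_zero]
    have h2 : (P.M0 * lv P x' + ZMod.val (ce P x')) / P.M0 = lv P x' := by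
      rw [Nat.mul_add_div (by omega), Nat.div_eq_of_lt hv', add_zero]
    rw [← h1, ← h2, hc2]
  have hce : ce P x = ce P x' := by
    rw [hl] at hc2
    exact ZMod.val_injective _ (by omega)
  refine ⟨hg, hl, hce, ?_, ?_⟩
  · unfold qH; rw [hg, hl]
  · intro y hy hy'
    have hext : ∀ z z' : Hx P, gd P z = gd P z' → lv P z = lv P z' → ce P z = ce P z' →
        ix P z = ix P z' → z = z' := by
      rintro ⟨g, ⟨j, hj⟩, a, ⟨i, hi⟩⟩ ⟨g', ⟨j', hj'⟩, a', ⟨i', hi'⟩⟩ h1 h2 h3 h4
      simp only [gd, lv, ce, ix] at h1 h2 h3 h4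
      subst h1; subst h2; subst h3; subst h4
      rfl
    have hadj : adjG P x y ↔ adjG P x' y := by
      unfold adjG
      rw [hg, hl, hce]
      have hA : gd P x' = gd P y → lv P x' = lv P y →
          ((¬ (ce P x' = ce P y ∧ ix P x = ix P y)) ↔
            (¬ (ce P x' = ce P y ∧ ix P x' = ix P y))) := by
        intro h1 h2
        have a1 : ¬ (ce P x' = ce P y ∧ ix P x = ix P y) := by
          rintro ⟨h3, h4⟩
          exact hy (hext _ _ (by rw [hg, h1]) (by rw [hl, h2]) (by rw [hce, h3]) h4).symm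
        have a2 : ¬ (ce P x' = ce P y ∧ ix P x' = ix P y) := by
          rintro ⟨h3, h4⟩
          exact hy' (hext _ _ h1 h2 h3 h4).symm
        exact ⟨fun _ => a2, fun _ => a1⟩
      constructor
      · rintro ⟨h1, h | h | h⟩
        · exact ⟨h1, Or.inl ⟨h.1, (hA h1 h.1).1 h.2.1, h.2.2⟩⟩
        · exact ⟨h1, Or.inr (Or.inl h)⟩
        · exact ⟨h1, Or.inr (Or.inr h)⟩
      · rintro ⟨h1, h | h | h⟩
        · exact ⟨h1, Or.inl ⟨h.1, (hA h1 h.1).2 h.2.1, h.2.2⟩⟩
        · exact ⟨h1, Or.inr (Or.inl h)⟩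
        · exact ⟨h1, Or.inr (Or.inr h)⟩
    unfold wH
    rw [hg, hl]
    by_cases h : adjG P x' y
    · rw [if_pos (hadj.2 h), if_pos h]
    · rw [if_neg (fun h' => h (hadj.1 h')), if_neg h]

/-- C6. -/
theorem CELL : CELL_stmt := by
  intro P Q x hQ
  have hM := P.hM0
  unfold szl
  have hcard : Fintype.card (Fin (4 ^ lv P x)) = 4 ^ lv P x := Fintype.card_fin _
  conv_rhs => rw [← hcard, ← Finset.card_univ]
  symm
  refine Finset.card_bij
    (fun (i : Fin (4 ^ lv P x)) _ => (⟨x.1, x.2.1, x.2.2.1, i⟩ : Hx P)) ?_ ?_ ?_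
  · intro i _
    simp only [Finset.mem_filter, Finset.mem_univ, true_and]
    exact ⟨hQ, rfl⟩
  · intro i _ i' _ h
    simp only [Sigma.mk.injEq, heq_eq_eq, true_and] at h
    exact congrArg Prod.snd h
  · intro z hz
    simp only [Finset.mem_filter, Finset.mem_univ, true_and] at hz
    obtain ⟨hz1, hz2⟩ := hz
    have hv := ZMod.val_lt (ce P x)
    have hv' := ZMod.val_lt (ce P z)
    unfold cellN at hz2
    have hg : gd P z = gd P x := by
      cases h1 : gd P z <;> cases h2 : gd P x <;> simp only [h1, h2] at hz2 ⊢ <;>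
        simp at hz2 <;> omega
    have hc2 : P.M0 * lv P z + ZMod.val (ce P z) = P.M0 * lv P x + ZMod.val (ce P x) := by
      rw [hg] at hz2
      omega
    have hl : lv P z = lv P x := by
      have h1 : (P.M0 * lv P x + ZMod.val (ce P x)) / P.M0 = lv P x := by
        rw [Nat.mul_add_div (by omega), Nat.div_eq_of_lt hv, add_zero]
      have h2 : (P.M0 * lv P z + ZMod.val (ce P z)) / P.M0 = lv P z := by
        rw [Nat.mul_add_div (by omega), Nat.div_eq_of_lt hv', add_zero]
      rw [← h1, ← h2, hc2]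
    have hce : ce P z = ce P x := by
      rw [hl] at hc2
      exact ZMod.val_injective _ (by omega)
    obtain ⟨g, ⟨j, hj⟩, a, i⟩ := x
    obtain ⟨g', ⟨j', hj'⟩, a', i'⟩ := z
    simp only [gd, lv, ce] at hg hl hce
    subst hg; subst hl; subst hce
    exact ⟨i', Finset.mem_univ _, rfl⟩

/-- C2. -/
theorem CONN : CONN_stmt := by
  intro P
  have hM := P.hM0
  have hMn := P.hMn
  have : NeZero P.Mn := ⟨by omega⟩
  let o : Vx P := Sum.inr 0
  have hinr : ∀ i : Fin P.Mn, (gr P).Reachable (Sum.inr i) o := by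
    intro i
    by_cases h : i = 0
    · subst h; exact SimpleGraph.Reachable.refl _
    · refine SimpleGraph.Adj.reachable ?_
      unfold gr
      rw [SimpleGraph.fromRel_adj]
      exact ⟨fun h' => h (Sum.inr_injective h'), Or.inl h⟩
  have hinl : ∀ (k : ℕ) (x : Hx P), P.m (gd P x) - lv P x = k →
      (gr P).Reachable (Sum.inl x) o := by
    intro k
    induction k with
    | zero =>
      intro x hx
      have h1 : lv P x ≤ P.m (gd P x) := Nat.lt_succ_iff.mp x.2.1.2
      have h2 : lv P x = P.m (gd P x) := by omega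
      refine SimpleGraph.Adj.reachable ?_
      unfold gr
      rw [SimpleGraph.fromRel_adj]
      exact ⟨by simp [o], Or.inl h2⟩
    | succ k ih =>
      intro x hx
      have h1 : lv P x + 1 < P.m (gd P x) + 1 := by omega
      let y : Hx P := ⟨x.1, ⟨lv P x + 1, h1⟩, x.2.2.1, ⟨0, by positivity⟩⟩
      have hy : (gr P).Reachable (Sum.inl y) o := by
        apply ih
        change P.m (gd P x) - (lv P x + 1) = k
        omega
      refine SimpleGraph.Reachable.trans (SimpleGraph.Adj.reachable ?_) hy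
      unfold gr
      rw [SimpleGraph.fromRel_adj]
      refine ⟨?_, Or.inl (Or.inl ⟨rfl, Or.inr (Or.inl ⟨rfl, ?_⟩)⟩)⟩
      · intro h
        have h3 : x = y := Sum.inl_injective h
        have h4 : lv P x = lv P y := by rw [← h3]
        have h5 : lv P y = lv P x + 1 := rfl
        omega
      · have h6 : ce P y - ce P x = 0 := sub_self _
        rw [h6, ZMod.val_zero]
        exact P.hw1 _ _
  have hall : ∀ v : Vx P, (gr P).Reachable v o := by
    rintro (x | i)
    · exact hinl _ x rfl
    · exact hinr i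
  have : Nonempty (Vx P) := ⟨o⟩
  exact SimpleGraph.Connected.mk fun u v => (hall u).trans (hall v).symm

/-- D6. -/
theorem FREE (hW : WTS_stmt) : FREE_stmt := by
  intro P φ hφ s
  obtain ⟨-, -, -, -, hw0, -, -, hq0, -, -, -, -, hX0, -, hX1, -⟩ := hW P
  set F : ℕ → Vx P → ℝ := fun s =>
    (pk (wX P))^[s] (fun y => Sum.elim φ (fun _ => 0) y) with hF
  have hFs : ∀ s, F (s + 1) = pk (wX P) (F s) := fun s => by
    simp only [hF, Function.iterate_succ_apply']
  have hF0 : ∀ s y, 0 ≤ F s y := by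
    intro s
    induction s with
    | zero =>
      intro y
      rcases y with x | i
      · exact hφ x
      · exact le_rfl
    | succ s ih =>
      intro y
      rw [hFs]
      unfold pk
      have h1 : 0 ≤ (1 - ∑ z, wX P y z) * F s y := mul_nonneg (by linarith [hX1 y]) (ih y)
      have h2 : 0 ≤ ∑ z, wX P y z * F s z :=
        Finset.sum_nonneg fun z _ => mul_nonneg (hX0 y z) (ih z)
      linarith
  have hsum : ∀ x : Hx P, ∑ z, wX P (Sum.inl x) z =
      ∑ y, wH P x y + (Fintype.card (Fin P.Mn) : ℝ) * qH P x := by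
    intro x
    rw [Fintype.sum_sum_type]
    simp [wX]
  change ∀ x, _ ≤ F s (Sum.inl x)
  induction s with
  | zero => intro x; exact le_rfl
  | succ s ih =>
    intro x
    rw [hFs, Function.iterate_succ_apply']
    have eK : ∀ f : Hx P → ℝ, Kw (Fintype.card (Fin P.Mn)) (wH P) (qH P) f x =
        (1 - ∑ y, wH P x y - (Fintype.card (Fin P.Mn) : ℝ) * qH P x) * f x +
          ∑ y, wH P x y * f y := fun f => rfl
    rw [eK]
    unfold pk
    rw [hsum x, Fintype.sum_sum_type]
    have h0 : 0 ≤ 1 - ∑ y, wH P x y - (Fintype.card (Fin P.Mn) : ℝ) * qH P x := by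
      have := hX1 (Sum.inl x)
      rw [hsum x] at this
      linarith
    have h1 : (1 - ∑ y, wH P x y - (Fintype.card (Fin P.Mn) : ℝ) * qH P x) *
        (Kw (Fintype.card (Fin P.Mn)) (wH P) (qH P))^[s] φ x ≤
        (1 - ∑ y, wH P x y - (Fintype.card (Fin P.Mn) : ℝ) * qH P x) * F s (Sum.inl x) :=
      mul_le_mul_of_nonneg_left (ih x) h0
    have h2 : ∑ y, wH P x y * (Kw (Fintype.card (Fin P.Mn)) (wH P) (qH P))^[s] φ y ≤
        ∑ y, wX P (Sum.inl x) (Sum.inl y) * F s (Sum.inl y) :=
      Finset.sum_le_sum fun y _ => mul_le_mul_of_nonneg_left (ih y) (hw0 x y)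
    have h3 : 0 ≤ ∑ i, wX P (Sum.inl x) (Sum.inr i) * F s (Sum.inr i) :=
      Finset.sum_nonneg fun i _ => mul_nonneg (hX0 _ _) (hF0 s _)
    have e : (1 - (∑ y, wH P x y + (Fintype.card (Fin P.Mn) : ℝ) * qH P x)) =
      1 - ∑ y, wH P x y - (Fintype.card (Fin P.Mn) : ℝ) * qH P x := by ring
    rw [e]
    linarith

end Pool.Agent.Helper3_CW
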