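import Pool.Agent.Helper91_CW.Mods
import Pool.Agent.Helper91_CW.Alg

set_option autoImplicit false

/-!
# U3 from its two parts
-/

namespace Pool.Agent.Helper3_CW

open Equiv
open Pool.Agent.Helper91_CW

set_option linter.unusedSectionVars false

section Ex
variable {H : Type} [Fintype H] [DecidableEq H]

theorem Ex_sub {M : Type} [AddCommGroup M] [Module ℝ M] (p : Sy H → ℝ) (t : ℕ) :
    ∀ F G : List (Sy H) → M, Ex p t (fun ω => F ω - G ω) = Ex p t F - Ex p t G := by
  induction t with
  | zero => intro F G; rfl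
  | succ t ih =>
    intro F G
    simp only [Ex, ih, smul_sub, Finset.sum_sub_distrib]

theorem Ex_add {M : Type} [AddCommMonoid M] [Module ℝ M] (p : Sy H → ℝ) (t : ℕ) :
    ∀ F G : List (Sy H) → M, Ex p t (fun ω => F ω + G ω) = Ex p t F + Ex p t G := by
  induction t with
  | zero => intro F G; rfl
  | succ t ih =>
    intro F G
    simp only [Ex, ih, smul_add, Finset.sum_add_distrib]

theorem Ex_zero {M : Type} [AddCommMonoid M] [Module ℝ M] (p : Sy H → ℝ) (t : ℕ) :
    Ex p t (fun _ => (0 : M)) = 0 := by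
  induction t with
  | zero => rfl
  | succ t ih => simp only [Ex, ih, smul_zero, Finset.sum_const_zero]

theorem Ex_smul {M : Type} [AddCommMonoid M] [Module ℝ M] (p : Sy H → ℝ) (t : ℕ) (c : ℝ) :
    ∀ F : List (Sy H) → M, Ex p t (fun ω => c • F ω) = c • Ex p t F := by
  induction t with
  | zero => intro F; rfl
  | succ t ih =>
    intro F
    simp only [Ex, ih, Finset.smul_sum]
    exact Finset.sum_congr rfl fun α _ => smul_comm _ _ _

theorem Ex_mul (p : Sy H → ℝ) (t : ℕ) (c : ℝ) (F : List (Sy H) → ℝ) :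
    Ex p t (fun ω => c * F ω) = c * Ex p t F := by
  simpa only [smul_eq_mul] using Ex_smul p t c F

theorem Ex_sum {M ι : Type} [AddCommMonoid M] [Module ℝ M] (p : Sy H → ℝ) (t : ℕ)
    (s : Finset ι) (F : ι → List (Sy H) → M) :
    Ex p t (fun ω => ∑ i ∈ s, F i ω) = ∑ i ∈ s, Ex p t (F i) := by
  classical
  induction s using Finset.induction_on with
  | empty => simp only [Finset.sum_empty]; exact Ex_zero p t
  | insert a s ha ih => simp only [Finset.sum_insert ha, Ex_add, ih]

theorem Ex_const {M : Type} [AddCommMonoid M] [Module ℝ M] (p : Sy H → ℝ) (t : ℕ) (m : M) :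
    Ex p t (fun _ => m) = (∑ α, p α) ^ t • m := by
  induction t with
  | zero => simp [Ex]
  | succ t ih =>
    simp only [Ex, ih]
    rw [← Finset.sum_smul, smul_smul, pow_succ']

theorem Ex_append {M : Type} [AddCommMonoid M] [Module ℝ M] (p : Sy H → ℝ) (t1 t2 : ℕ) :
    ∀ F : List (Sy H) → M, Ex p (t1 + t2) F =
      Ex p t1 (fun ω1 => Ex p t2 (fun ω2 => F (ω1 ++ ω2))) := by
  induction t1 with
  | zero => intro F; simp [Ex]
  | succ t ih =>
    intro F
    rw [show t + 1 + t2 = (t + t2) + 1 by ring]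
    simp only [Ex, ih, List.cons_append]

theorem Ex_mono (p : Sy H → ℝ) (hp : ∀ α, 0 ≤ p α) (t : ℕ) :
    ∀ F G : List (Sy H) → ℝ, (∀ ω, F ω ≤ G ω) → Ex p t F ≤ Ex p t G := by
  induction t with
  | zero => intro F G h; exact h []
  | succ t ih =>
    intro F G h
    simp only [Ex, smul_eq_mul]
    exact Finset.sum_le_sum fun α _ => mul_le_mul_of_nonneg_left (ih _ _ fun ω => h _) (hp α)

theorem nrm_Ex_le {G : Type} [Fintype G] (p : Sy H → ℝ) (hp : ∀ α, 0 ≤ p α) (t : ℕ) :
    ∀ F : List (Sy H) → Alg G, nrm (Ex p t F) ≤ Ex p t (fun ω => nrm (F ω)) := by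
  induction t with
  | zero => intro F; exact le_rfl
  | succ t ih =>
    intro F
    simp only [Ex, smul_eq_mul]
    refine (nrm_sum_le _ _).trans (Finset.sum_le_sum fun α _ => ?_)
    rw [nrm_smul, abs_of_nonneg (hp α)]
    exact mul_le_mul_of_nonneg_left (ih _) (hp α)

theorem Ex_tr (p : Sy H → ℝ) (f : H → ℝ) (t : ℕ) :
    ∀ x, Ex p t (fun ω => (tr ω x).elim 0 f) = Kit p t f x := by
  induction t with
  | zero => intro x; rfl
  | succ t ih =>
    intro x
    have e : Kit p (t + 1) f x = Kop p (Kit p t f) x := by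
      unfold Kit
      rw [Function.iterate_succ_apply']
    rw [e]
    simp only [Ex, tr, smul_eq_mul, Kop]
    refine Finset.sum_congr rfl fun α _ => ?_
    congr 1
    cases h : act α x with
    | none => simpa using Ex_zero (M := ℝ) p t
    | some z => simpa using ih z

theorem tr_append (ω1 ω2 : List (Sy H)) (x : H) : tr (ω1 ++ ω2) x = (tr ω1 x).bind (tr ω2) := by
  induction ω1 generalizing x with
  | nil => rfl
  | cons α ω ih =>
    simp only [List.cons_append, tr]
    cases act α x with
    | none => rfl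
    | some z => simpa using ih z

theorem act_inj (α : Sy H) (x x' y : H) (h : act α x = some y) (h' : act α x' = some y) :
    x = x' := by
  match α with
  | none => simp only [act, Option.some.injEq] at h h'; rw [h, h']
  | some (Sum.inl (a, b)) =>
    simp only [act, Option.some.injEq] at h h'
    exact (swap a b).injective (h.trans h'.symm)
  | some (Sum.inr v) =>
    simp only [act] at h h'
    split_ifs at h h'
    simp only [Option.some.injEq] at h h'
    rw [h, h']

theorem tr_inj (ω : List (Sy H)) : ∀ x x' y : H, tr ω x = some y → tr ω x' = some y → x = x' := by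
  induction ω with
  | nil => intro x x' y h h'; simp only [tr, Option.some.injEq] at h h'; rw [h, h']
  | cons α ω ih =>
    intro x x' y h h'
    simp only [tr, Option.bind_eq_some_iff] at h h'
    obtain ⟨z, hz, hy⟩ := h
    obtain ⟨z', hz', hy'⟩ := h'
    obtain rfl := ih _ _ _ hy hy'
    exact act_inj α _ _ _ hz hz'

theorem compLow_le (Up : Finset H) (S1 S2 : H → Option H) (x y : H)
    (h : compLow Up S1 S2 x = some y) : (S1 x).bind S2 = some y := by
  unfold compLow at h
  rw [Option.bind_eq_some_iff] at h ⊢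
  obtain ⟨z, hz, hy⟩ := h
  split_ifs at hy
  exact ⟨z, hz, hy⟩

theorem nrm_unif_le {G : Type} [Fintype G] [DecidableEq G] [Group G] (S : Finset G) :
    nrm (unif S) ≤ 1 := by
  unfold unif
  rw [nrm_smul, abs_of_nonneg (by positivity)]
  have h1 : nrm (∑ g ∈ S, pt g) ≤ S.card := by
    refine (nrm_sum_le _ _).trans ?_
    simp [nrm_pt]
  rcases Nat.eq_zero_or_pos S.card with h | h
  · simp [h]
  · rw [inv_mul_le_iff₀ (by exact_mod_cast h)]
    simpa using h1

theorem nrm_uG_le (B : Type) [Fintype B] [DecidableEq B] (lv : H → ℕ) (Up : Finset H) :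
    nrm (uG B lv Up) ≤ 1 := by
  unfold uG
  rw [nrm_smul, abs_of_nonneg (by positivity)]
  have h1 : nrm (∑ g ∈ GLv lv Up, pt (Perm.sumCongr g (1 : Perm B))) ≤ (GLv lv Up).card := by
    refine (nrm_sum_le _ _).trans ?_
    simp [nrm_pt]
  rcases Nat.eq_zero_or_pos (GLv lv Up).card with h | h
  · simp [h]
  · rw [inv_mul_le_iff₀ (by exact_mod_cast h)]
    simpa using h1

end Ex

open Classical in
/-- The bound for one pair of words. -/
theorem word_bound (hP : PlantStatement) {H B : Type} [Fintype H] [DecidableEq H] [Fintype B]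
    [DecidableEq B] (hB : 1 ≤ Fintype.card B) (lv : H → ℕ) (Up : Finset H) (r0 : ℕ) (A : ℝ)
    (hr : 1 ≤ r0) (hA : 0 < A) (S T : H → Option H)
    (hS : ∀ x x' y, S x = some y → S x' = some y → x = x')
    (hST : ∀ x y, S x = some y → T x = some y) :
    nrm (uG B lv Up * US B S * uG B lv Up - UU H B) ≤
      2 * ((∑ x, ∑ y, if GoodPair lv Up r0 A x y then 0 else
          (T x).elim 0 (fun z => if z = y then (1 : ℝ) else 0)) +
        (r0 : ℝ)⁻¹ * ∑ x, (T x).elim 0 (fun _ => 1)) +
      2 * Real.sqrt ((Fintype.card H + Fintype.card B : ℕ) / A) *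
        ∑ x, (T x).elim 0 (fun _ => 1) := by
  have hbad0 : 0 ≤ ∑ x, ∑ y, if GoodPair lv Up r0 A x y then 0 else
      (T x).elim 0 (fun z => if z = y then (1 : ℝ) else 0) := by
    refine Finset.sum_nonneg fun x _ => Finset.sum_nonneg fun y _ => ?_
    split_ifs
    · exact le_rfl
    · cases T x with
      | none => simp
      | some z => simp only [Option.elim]; split_ifs <;> norm_num
  have hd0 : 0 ≤ ∑ x, (T x).elim (0 : ℝ) (fun _ => 1) := by
    refine Finset.sum_nonneg fun x _ => ?_
    cases T x <;> simp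
  have hdS : ((Finset.univ.filter fun x => S x ≠ none).card : ℝ) ≤
      ∑ x, (T x).elim (0 : ℝ) (fun _ => 1) := by
    rw [Finset.card_filter]
    push_cast
    refine Finset.sum_le_sum fun x _ => ?_
    split_ifs with h
    · obtain ⟨y, hy⟩ := Option.ne_none_iff_exists'.mp h
      rw [hST x y hy]; simp
    · cases T x <;> simp
  have hr' : (0 : ℝ) < r0 := by exact_mod_cast hr
  have hnrm2 : nrm (uG B lv Up * US B S * uG B lv Up - UU H B) ≤ 2 := by
    refine (nrm_sub_le _ _).trans ?_
    have h1 : nrm (uG B lv Up * US B S * uG B lv Up) ≤ 1 := by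
      refine (nrm_mul_le _ _).trans ?_
      have h2 : nrm (uG B lv Up * US B S) ≤ 1 :=
        (nrm_mul_le _ _).trans (mul_le_one₀ (nrm_uG_le B lv Up) (nrm_nonneg _) (nrm_unif_le _))
      exact mul_le_one₀ h2 (nrm_nonneg _) (nrm_uG_le B lv Up)
    have h3 : nrm (UU H B) ≤ 1 := nrm_unif_le _
    linarith
  by_cases hgood : ∀ x y, S x = some y → GoodPair lv Up r0 A x y
  · by_cases hcard : (Finset.univ.filter fun x => S x ≠ none).card ≤ r0
    · have h1 := hP H B hB lv Up r0 A hr hA S hS hgood hcard
      have h2 : ((Finset.univ.filter fun x => S x ≠ none).card : ℝ) *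
          (2 * Real.sqrt ((Fintype.card H + Fintype.card B : ℕ) / A)) ≤
          2 * Real.sqrt ((Fintype.card H + Fintype.card B : ℕ) / A) *
            ∑ x, (T x).elim 0 (fun _ => 1) := by
        rw [mul_comm]
        exact mul_le_mul_of_nonneg_left hdS (by positivity)
      have h3 : 0 ≤ (r0 : ℝ)⁻¹ * ∑ x, (T x).elim (0 : ℝ) (fun _ => 1) := by positivity
      linarith
    · push Not at hcard
      have h1 : (1 : ℝ) ≤ (r0 : ℝ)⁻¹ * ∑ x, (T x).elim (0 : ℝ) (fun _ => 1) := by
        rw [le_inv_mul_iff₀ hr']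
        have : (r0 : ℝ) ≤ ((Finset.univ.filter fun x => S x ≠ none).card : ℝ) := by
          exact_mod_cast hcard.le
        linarith
      have h2 : 0 ≤ 2 * Real.sqrt ((Fintype.card H + Fintype.card B : ℕ) / A) *
        ∑ x, (T x).elim (0 : ℝ) (fun _ => 1) := by positivity
      linarith
  · push Not at hgood
    obtain ⟨x, y, hxy, hb⟩ := hgood
    have h1 : (1 : ℝ) ≤ ∑ x, ∑ y, if GoodPair lv Up r0 A x y then 0 else
        (T x).elim 0 (fun z => if z = y then (1 : ℝ) else 0) := by
      have hnn : ∀ x y, (0 : ℝ) ≤ if GoodPair lv Up r0 A x y then 0 else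
          (T x).elim 0 (fun z => if z = y then (1 : ℝ) else 0) := by
        intro x y
        split_ifs
        · exact le_rfl
        · cases T x with
          | none => simp
          | some z => simp only [Option.elim]; split_ifs <;> norm_num
      refine le_trans ?_ (Finset.single_le_sum
        (f := fun x => ∑ y, if GoodPair lv Up r0 A x y then 0 else
          (T x).elim 0 (fun z => if z = y then (1 : ℝ) else 0))
        (fun x _ => Finset.sum_nonneg fun y _ => hnn x y) (Finset.mem_univ x))
      refine le_trans ?_ (Finset.single_le_sum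
        (f := fun y => if GoodPair lv Up r0 A x y then 0 else
          (T x).elim 0 (fun z => if z = y then (1 : ℝ) else 0))
        (fun y _ => hnn x y) (Finset.mem_univ y))
      simp only [hb, if_false, hST x y hxy, Option.elim, if_true]
      exact le_rfl
    have h2 : 0 ≤ 2 * Real.sqrt ((Fintype.card H + Fintype.card B : ℕ) / A) *
        ∑ x, (T x).elim (0 : ℝ) (fun _ => 1) := by positivity
    have h3 : 0 ≤ (r0 : ℝ)⁻¹ * ∑ x, (T x).elim (0 : ℝ) (fun _ => 1) := by positivity
    linarith

/-- U3 from its two parts. -/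
theorem u3_assembly : U3AssemblyStatement := by
  classical
  intro hP hH H B _ _ _ _ hB p hp hp1 lv Up hsym r0 A hr hA t1 t2
  have h1 := hH H B hB p hp hp1 lv Up hsym t1 t2
  have h2 : nrm (Ex p t1 (fun ω1 => Ex p t2 (fun ω2 =>
      uG B lv Up * US B (compLow Up (tr ω1) (tr ω2)) * uG B lv Up)) -
        (∑ α, p α) ^ (t1 + t2) • UU H B) ≤
      2 * ((∑ x, ∑ y, if GoodPair lv Up r0 A x y then 0 else
              Kit p (t1 + t2) (fun z => if z = y then 1 else 0) x) +
            (r0 : ℝ)⁻¹ * Mt p (t1 + t2)) +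
        2 * Real.sqrt ((Fintype.card H + Fintype.card B : ℕ) / A) * Mt p (t1 + t2) := by
    have e1 : (∑ α, p α) ^ (t1 + t2) • UU H B =
        Ex p t1 (fun _ => Ex p t2 (fun _ => UU H B)) := by
      rw [Ex_const, Ex_const, smul_smul, pow_add]
    rw [e1, ← Ex_sub]
    simp only [← Ex_sub]
    refine (nrm_Ex_le p hp t1 _).trans ?_
    refine (Ex_mono p hp t1 _ _ fun ω1 => nrm_Ex_le p hp t2 _).trans ?_
    refine (Ex_mono p hp t1 _ _ fun ω1 => Ex_mono p hp t2 _ _ fun ω2 =>
      word_bound hP hB lv Up r0 A hr hA (compLow Up (tr ω1) (tr ω2)) (tr (ω1 ++ ω2))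
        ?_ ?_).trans ?_
    · intro x x' y hx hx'
      have a := compLow_le Up _ _ _ _ hx
      have a' := compLow_le Up _ _ _ _ hx'
      rw [← tr_append] at a a'
      exact tr_inj _ _ _ _ a a'
    · intro x y hx
      rw [tr_append]
      exact compLow_le Up _ _ _ _ hx
    · have e2 := Ex_append p t1 t2 (fun ω =>
        2 * ((∑ x, ∑ y, if GoodPair lv Up r0 A x y then 0 else
          (tr ω x).elim 0 (fun z => if z = y then (1 : ℝ) else 0)) +
        (r0 : ℝ)⁻¹ * ∑ x, (tr ω x).elim 0 (fun _ => 1)) +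
        2 * Real.sqrt ((Fintype.card H + Fintype.card B : ℕ) / A) *
          ∑ x, (tr ω x).elim 0 (fun _ => 1))
      rw [← e2]
      clear e2
      rw [Ex_add, Ex_mul, Ex_add, Ex_mul, Ex_mul, Ex_sum, Ex_sum]
      have e3 : ∀ x : H, Ex p (t1 + t2) (fun ω => ∑ y, if GoodPair lv Up r0 A x y then 0 else
          (tr ω x).elim 0 (fun z => if z = y then (1 : ℝ) else 0)) =
          ∑ y, if GoodPair lv Up r0 A x y then 0 else
              Kit p (t1 + t2) (fun z => if z = y then 1 else 0) x := by
        intro x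
        rw [Ex_sum]
        refine Finset.sum_congr rfl fun y _ => ?_
        by_cases hg : GoodPair lv Up r0 A x y
        · simp only [hg, if_true]
          exact Ex_zero p _
        · simp only [hg, if_false]
          exact Ex_tr p (fun z => if z = y then 1 else 0) (t1 + t2) x
      have e4 : ∀ x : H, Ex p (t1 + t2) (fun ω => (tr ω x).elim (0 : ℝ) (fun _ => 1)) =
          Kit p (t1 + t2) (fun _ => 1) x := fun x => Ex_tr p (fun _ => 1) (t1 + t2) x
      simp only [e3, e4]
      exact le_rfl
  refine (nrm_sub_le_sub _ (Ex p t1 (fun ω1 => Ex p t2 (fun ω2 =>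
      uG B lv Up * US B (compLow Up (tr ω1) (tr ω2)) * uG B lv Up))) _).trans ?_
  linarith

end Pool.Agent.Helper3_CW
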